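import Pool.Agent.H31.SX.TargetsS
import Pool.Agent.H31.SX.TargetsD
import Pool.Agent.H63.SWL.ME

/-!
# Module ME of the board swx_modules: the bound for the sum over a residue class
-/

set_option autoImplicit false
set_option linter.unusedSectionVars false

open NumberField NumberField.InfinitePlace Set
open scoped nonZeroDivisors

namespace Pool.Agent.H63.SWX.ME

open Pool.Agent.H25.HK Pool.Agent.H23.LB Pool.Agent.H23.LC Pool.Agent.H31.SW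
  Pool.Agent.H31.SX Pool.Agent.H63.SWL
open Pool.Agent.H29.DW (dg Rl wv Pos rv wv_add wv_zero)
open Pool.Agent.H63.SWL.ME (Pf_bound norm_GG FX FX_le FX_ne final)

variable {K : Type} [Field K] [NumberField K]

theorem Nf_pos {I : Ideal (𝓞 K)} (h : I ≠ ⊥) : 0 < Nf K I := by
  unfold Nf
  have : Ideal.absNorm I ≠ 0 := fun h0 => h (Ideal.absNorm_eq_zero_iff.1 h0)
  exact_mod_cast Nat.pos_of_ne_zero this

theorem one_le_Nf {I : Ideal (𝓞 K)} (h : I ≠ ⊥) : 1 ≤ Nf K I := by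
  unfold Nf
  have : Ideal.absNorm I ≠ 0 := fun h0 => h (Ideal.absNorm_eq_zero_iff.1 h0)
  exact_mod_cast Nat.one_le_iff_ne_zero.2 this

theorem Nf_mul (I J : Ideal (𝓞 K)) : Nf K (I * J) = Nf K I * Nf K J := by
  unfold Nf
  rw [map_mul]
  push_cast
  rfl

theorem DD_mul (I : Ideal (𝓞 K)) (M : FI K) (y : InfinitePlace K → ℝ) :
    DD ((I : FI K) * M) y = DD M y / Nf K I := by
  unfold DD Nf
  rw [map_mul, FractionalIdeal.coeIdeal_absNorm]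
  push_cast
  rw [div_div, mul_comm (Ideal.absNorm I : ℝ)]

theorem mul_ne {I : Ideal (𝓞 K)} {M : FI K} (hI : I ≠ ⊥) (hM : M ≠ 0) : (I : FI K) * M ≠ 0 :=
  mul_ne_zero (FractionalIdeal.coeIdeal_ne_zero.2 hI) hM

theorem mem_mono {I J : Ideal (𝓞 K)} (h : I ≤ J) {M : FI K} {x : K} (hx : x ∈ (I : FI K) * M) :
    x ∈ (J : FI K) * M := by
  have h1 : (I : FI K) ≤ (J : FI K) := (FractionalIdeal.coeIdeal_le_coeIdeal K).2 h
  have h2 : (I : FI K) * M ≤ (J : FI K) * M := mul_le_mul_left h1 M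
  exact h2 hx

theorem mem_of {I : Ideal (𝓞 K)} {M : FI K} {x : K} (hx : x ∈ (I : FI K) * M) : x ∈ M := by
  have h1 := mem_mono (J := ⊤) le_top hx
  rw [FractionalIdeal.coeIdeal_top, one_mul] at h1
  exact h1

theorem ci_shift {f : Ideal (𝓞 K)} {M : FI K} {ρ x δ : K} (hδ : δ ∈ (f : FI K) * M) :
    ci K f M ρ (x + δ) = ci K f M ρ x := by
  unfold ci
  have h : x + δ - ρ ∈ (f : FI K) * M ↔ x - ρ ∈ (f : FI K) * M := by
    constructor
    · intro h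
      have := sub_memL h hδ
      rwa [show x + δ - ρ - δ = x - ρ by ring] at this
    · intro h
      have := add_memL h hδ
      rwa [show x - ρ + δ = x + δ - ρ by ring] at this
  by_cases h1 : x - ρ ∈ (f : FI K) * M
  · rw [if_pos h1, if_pos (h.2 h1)]
  · rw [if_neg h1, if_neg (fun h2 => h1 (h.1 h2))]

theorem ci_sq {f : Ideal (𝓞 K)} {M : FI K} {ρ x : K} :
    ci K f M ρ x * (starRingEnd ℂ) (ci K f M ρ x) = ci K f M ρ x := by
  unfold ci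
  split_ifs <;> simp

theorem norm_ci {f : Ideal (𝓞 K)} {M : FI K} {ρ x : K} : ‖ci K f M ρ x‖ ≤ 1 := by
  unfold ci
  split_ifs <;> simp

theorem ci_ne {f : Ideal (𝓞 K)} {M : FI K} {ρ x : K} (h : ci K f M ρ x ≠ 0) :
    x - ρ ∈ (f : FI K) * M := by
  unfold ci at h
  by_contra h1
  exact h (if_neg h1)

theorem tsum_boundL' (L : FI K) (F : K → ℂ) {S : Set K} (hS : S.Finite)
    (h : ∀ x ∈ L, F x ≠ 0 → x ∈ S) {B Q : ℝ} (hB0 : 0 ≤ B) (hB : ∀ x ∈ L, ‖F x‖ ≤ B)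
    (hQ : (S.ncard : ℝ) ≤ Q) : ‖∑' x : {x : K // x ∈ L}, F x‖ ≤ Q * B := by
  classical
  have h1 : ∑' x : {x : K // x ∈ L}, F x =
      ∑' x : {x : K // x ∈ L}, (fun x : K => if x ∈ L then F x else 0) x :=
    tsum_congr fun x => (if_pos x.2).symm
  rw [h1]
  refine tsum_boundL L (fun x : K => if x ∈ L then F x else 0) hS ?_ ?_ hQ
  · intro x hx hne
    refine h x hx ?_
    rwa [if_pos hx] at hne
  · intro x
    show ‖if x ∈ L then F x else 0‖ ≤ B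
    by_cases hx : x ∈ L
    · rw [if_pos hx]
      exact hB x hx
    · rw [if_neg hx, norm_zero]
      exact hB0

/-- the function of the sum -/
noncomputable def FY (p : Bool → ℂ → ℂ) (c : InfinitePlace K → ℂ) (y : InfinitePlace K → ℝ)
    (ω : InfinitePlace K → ℂ) (f : Ideal (𝓞 K)) (M : FI K) (ρ : K) (q : K → ℂ) (x : K) : ℂ :=
  ci K f M ρ x * q x * pF (fun v => GG (p (rv v)) (c v)) y ω x

theorem FY_le {p : Bool → ℂ → ℂ} {B : ℝ} (hB : 1 ≤ B) (hp : ∀ r x, ‖p r x‖ ≤ B)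
    (c : InfinitePlace K → ℂ) (y : InfinitePlace K → ℝ) (ω : InfinitePlace K → ℂ)
    (f : Ideal (𝓞 K)) (M : FI K) (ρ : K) {q : K → ℂ} {x : K} (hq : ‖q x‖ ≤ 1) :
    ‖FY p c y ω f M ρ q x‖ ≤ B ^ Module.finrank ℚ K := by
  have h1 : ‖pF (fun v => GG (p (rv v)) (c v)) y ω x‖ ≤ B ^ Module.finrank ℚ K :=
    norm_pF_le hB (fun v z => by rw [norm_GG]; exact hp _ _) y ω _
  unfold FY
  rw [norm_mul, norm_mul]
  calc ‖ci K f M ρ x‖ * ‖q x‖ * ‖pF (fun v => GG (p (rv v)) (c v)) y ω x‖ ≤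
        1 * 1 * (B ^ Module.finrank ℚ K) := by
        refine mul_le_mul (mul_le_mul norm_ci hq (norm_nonneg _) zero_le_one) h1
          (norm_nonneg _) (by norm_num)
    _ = _ := by ring

theorem FY_ne {p : Bool → ℂ → ℂ} (hp : Pf p) {c : InfinitePlace K → ℂ}
    {y : InfinitePlace K → ℝ} {ω : InfinitePlace K → ℂ} {f : Ideal (𝓞 K)} {M : FI K} {ρ : K}
    {q : K → ℂ} {x : K} (h : FY p c y ω f M ρ q x ≠ 0) :
    x - ρ ∈ (f : FI K) * M ∧ ∀ v : InfinitePlace K, ‖wv v x y ω - 1‖ ≤ 1 / 10000 := by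
  unfold FY at h
  refine ⟨ci_ne (left_ne_zero_of_mul (left_ne_zero_of_mul h)), fun v => ?_⟩
  have h1 := pF_ne (right_ne_zero_of_mul h) v
  by_contra h2
  apply h1
  show GG (p (rv v)) (c v) (wv v x y ω) = 0
  unfold GG
  rw [hp.2 _ _ (not_le.1 h2), mul_zero]

/-- the sum of a difference of the function -/
theorem dif_FY (p : Bool → ℂ → ℂ) (c : InfinitePlace K → ℂ)
    (y : InfinitePlace K → ℝ) (ω : InfinitePlace K → ℂ) (f : Ideal (𝓞 K)) (M : FI K) (ρ : K)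
    (q : K → ℂ) {δ : K} (hδ : δ ∈ (f : FI K) * M) :
    ∑' x : {x : K // x ∈ M}, dif (2 * δ) (FY p c y ω f M ρ q) x =
      ∑' x : {x : K // x ∈ M}, ci K f M ρ x * (q (x + δ) * (starRingEnd ℂ) (q (x - δ))) *
        pF (fun v => G2 (p (rv v)) (c v) (wv v δ y ω)) y ω x := by
  have h1 : ∀ x : K, dif (2 * δ) (FY p c y ω f M ρ q) x =
      (fun x : K => ci K f M ρ x * (q (x + δ) * (starRingEnd ℂ) (q (x - δ))) *
        pF (fun v => G2 (p (rv v)) (c v) (wv v δ y ω)) y ω x) (x + δ) := by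
    intro x
    show FY p c y ω f M ρ q (x + 2 * δ) * (starRingEnd ℂ) (FY p c y ω f M ρ q x) =
      ci K f M ρ (x + δ) * (q (x + δ + δ) * (starRingEnd ℂ) (q (x + δ - δ))) *
        pF (fun v => G2 (p (rv v)) (c v) (wv v δ y ω)) y ω (x + δ)
    have e0 : pF (fun v => G2 (p (rv v)) (c v) (wv v δ y ω)) y ω (x + δ) =
        pF (fun v => GG (p (rv v)) (c v)) y ω (x + 2 * δ) *
          (starRingEnd ℂ) (pF (fun v => GG (p (rv v)) (c v)) y ω x) := by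
      unfold pF
      rw [map_prod, ← Finset.prod_mul_distrib]
      refine Finset.prod_congr rfl fun v _ => ?_
      unfold G2
      have e1 : wv v (x + 2 * δ) y ω = wv v (x + δ) y ω + wv v δ y ω := by
        rw [← wv_add]
        congr 1
        ring
      have e2 : wv v x y ω = wv v (x + δ) y ω - wv v δ y ω := by
        rw [← wv_sub]
        congr 1
        ring
      rw [e1]
      conv_rhs => rw [e2]
    have e3 : ci K f M ρ (x + 2 * δ) = ci K f M ρ x := by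
      rw [two_mul, ← add_assoc, ci_shift hδ, ci_shift hδ]
    have e4 : x + δ + δ = x + 2 * δ := by ring
    have e5 : x + δ - δ = x := by ring
    rw [e0, ci_shift hδ, e4, e5]
    unfold FY
    rw [e3, map_mul, map_mul]
    calc _ = (ci K f M ρ x * (starRingEnd ℂ) (ci K f M ρ x)) *
          (q (x + 2 * δ) * (starRingEnd ℂ) (q x)) *
          (pF (fun v => GG (p (rv v)) (c v)) y ω (x + 2 * δ) *
          (starRingEnd ℂ) (pF (fun v => GG (p (rv v)) (c v)) y ω x)) := by ring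
      _ = _ := by rw [ci_sq]
  have h2 := tsum_shift M (mem_of hδ)
    (fun x : K => ci K f M ρ x * (q (x + δ) * (starRingEnd ℂ) (q (x - δ))) *
        pF (fun v => G2 (p (rv v)) (c v) (wv v δ y ω)) y ω x)
  rw [← h2]
  exact tsum_congr fun x => h1 x

/-- the number of the points of a residue class in a box -/
theorem count {CU : ℝ} (hCU : 1 ≤ CU) {f : Ideal (𝓞 K)} {M : FI K} {ρ : K}
    (y : InfinitePlace K → ℝ) (ω : InfinitePlace K → ℂ) {A : ℝ}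
    (hA0 : DD ((f : FI K) * M) y ≤ A) (hA1 : 0 ≤ DD ((f : FI K) * M) y)
    {R : ℝ} (hR0 : 0 ≤ R) (hR1 : R ≤ 1)
    (HU : ∀ c : InfinitePlace K → ℂ,
      {x : K | x ∈ (f : FI K) * M ∧ ∀ v, ‖wv v x y ω - c v‖ ≤ R}.Finite ∧
      ({x : K | x ∈ (f : FI K) * M ∧ ∀ v, ‖wv v x y ω - c v‖ ≤ R}.ncard : ℝ) ≤
        CU * (1 + DD ((f : FI K) * M) y * PP (fun _ : InfinitePlace K => R))) :
    {x : K | x - ρ ∈ (f : FI K) * M ∧ ∀ v, ‖wv v x y ω - 1‖ ≤ R}.Finite ∧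
      ({x : K | x - ρ ∈ (f : FI K) * M ∧ ∀ v, ‖wv v x y ω - 1‖ ≤ R}.ncard : ℝ) ≤
        CU * (1 + A) := by
  obtain ⟨h1, h2⟩ := HU (fun v => 1 - wv v ρ y ω)
  have h3 : {x : K | x - ρ ∈ (f : FI K) * M ∧ ∀ v, ‖wv v x y ω - 1‖ ≤ R} =
      (fun x => x + ρ) '' {x : K | x ∈ (f : FI K) * M ∧
        ∀ v, ‖wv v x y ω - (1 - wv v ρ y ω)‖ ≤ R} := by
    ext x
    constructor
    · rintro ⟨a1, a2⟩
      refine ⟨x - ρ, ⟨a1, fun v => ?_⟩, sub_add_cancel _ _⟩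
      rw [wv_sub, show wv v x y ω - wv v ρ y ω - (1 - wv v ρ y ω) = wv v x y ω - 1 by ring]
      exact a2 v
    · rintro ⟨x', ⟨a1, a2⟩, rfl⟩
      refine ⟨by rwa [add_sub_cancel_right], fun v => ?_⟩
      rw [wv_add, show wv v x' y ω + wv v ρ y ω - 1 = wv v x' y ω - (1 - wv v ρ y ω) by ring]
      exact a2 v
  rw [h3]
  refine ⟨h1.image _, ?_⟩
  rw [Set.ncard_image_of_injective _ (add_left_injective ρ)]
  refine h2.trans (mul_le_mul_of_nonneg_left ?_ (by linarith))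
  have h4 : PP (fun _ : InfinitePlace K => R) ≤ 1 := by
    rw [PP_const]
    exact pow_le_one₀ hR0 hR1
  have h5 : DD ((f : FI K) * M) y * PP (fun _ : InfinitePlace K => R) ≤ A * 1 :=
    mul_le_mul hA0 h4 (PP_nonneg fun _ => hR0) (hA1.trans hA0)
  linarith

theorem pf_ME (hCU : W_CU) (hCL : W_CL) (hWD : W_WD) (hNM : W_NM) (hNB : W_NB) (hKP : X_KP)
    (hSD : X_SD) : X_ME := by
  classical
  intro n p hn hp
  obtain ⟨B₀, hB₀, hpB⟩ := Pf_bound hp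
  obtain ⟨CU, hCU1, HU⟩ := hCU n hn
  obtain ⟨cL, hcL, HL⟩ := hCL n hn
  obtain ⟨CS, hCS, HS⟩ := hSD n p hn hp
  obtain ⟨b, hb⟩ : ∃ b, b = B₀ ^ n := ⟨_, rfl⟩
  have hb1 : 1 ≤ b := by rw [hb]; exact one_le_pow₀ hB₀
  obtain ⟨C2, hC2⟩ : ∃ C2, C2 = 2 * CU / (cL * (1 / 20000) ^ n) := ⟨_, rfl⟩
  have hC20 : 0 ≤ C2 := by rw [hC2]; positivity
  obtain ⟨E, hE⟩ : ∃ E, E = C2 * (2 * CU * b ^ 2 + 6 * CU * CS) := ⟨_, rfl⟩
  have hE0 : 0 ≤ E := by rw [hE]; positivity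
  refine ⟨CU * b * 2 + Real.sqrt E, by positivity, ?_⟩
  intro K _ _ hK l k M q y ω c ρ hl hk hM hω hCD hc hρM
  -- the ideals
  obtain ⟨r, hr⟩ : ∃ r, r = k.radical := ⟨_, rfl⟩
  have hkr : k ≤ r := by rw [hr]; exact Ideal.le_radical
  have hr0 : r ≠ ⊥ := by
    intro h
    rw [h] at hkr
    exact hk (le_bot_iff.1 hkr)
  rw [← hr] at hCD ⊢
  have hRK : RK k r := ⟨hk, hr0, by rw [hr, Ideal.radical_idem], by rw [hr]⟩
  obtain ⟨κf, hκf⟩ := hKP K k r hRK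
  obtain ⟨hκ0, hκr, hκ1, hκ2, hκ4, hκk, -⟩ := hκf (27 / 82) (by norm_num) (by norm_num)
  obtain ⟨κ, hκ⟩ : ∃ κ, κ = κf (27 / 82) := ⟨_, rfl⟩
  rw [← hκ] at hκ0 hκr hκ1 hκ2 hκ4 hκk
  have hκ4' := hκ4 (by norm_num)
  have hκk' := hκk hr
  obtain ⟨Nk, hNk⟩ : ∃ Nk, Nk = Nf K k := ⟨_, rfl⟩
  obtain ⟨Nr, hNr⟩ : ∃ Nr, Nr = Nf K r := ⟨_, rfl⟩
  obtain ⟨Nκ, hNκ⟩ : ∃ Nκ, Nκ = Nf K κ := ⟨_, rfl⟩
  have hNk1 : 1 ≤ Nk := by rw [hNk]; exact one_le_Nf hk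
  have hNr1 : 1 ≤ Nr := by rw [hNr]; exact one_le_Nf hr0
  have hNκ1 : 1 ≤ Nκ := by rw [hNκ]; exact one_le_Nf hκ0
  rw [← hNk, ← hNκ] at hκ1
  rw [← hNk, ← hNκ, ← hNr] at hκ2
  rw [← hNk, ← hNr]
  have hlr0 : l * r ≠ ⊥ := mul_ne_zero hl hr0
  have hlκ0 : l * κ ≠ ⊥ := mul_ne_zero hl hκ0
  have hlκr : l * κ ≤ l * r := Ideal.mul_mono_right hκr
  -- the quantities
  have hDDM : 0 < DD M y := DD_pos hM y
  have hNl0 : 0 < Nf K l := Nf_pos hl
  obtain ⟨A, hA⟩ : ∃ A, A = DD M y / Nf K l := ⟨_, rfl⟩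
  have hA0 : 0 < A := by rw [hA]; positivity
  have hDlr : DD (((l * r : Ideal (𝓞 K)) : FI K) * M) y = A / Nr := by
    rw [DD_mul, Nf_mul, hA, hNr, div_div]
  have hDlκ : DD (((l * κ : Ideal (𝓞 K)) : FI K) * M) y = A / Nκ := by
    rw [DD_mul, Nf_mul, hA, hNκ, div_div]
  obtain ⟨T₀, hT₀⟩ : ∃ T₀, T₀ = PP (fun v => 1 + ‖c v‖) := ⟨_, rfl⟩
  have h1c : ∀ v, (1 : ℝ) ≤ 1 + ‖c v‖ := fun v => by linarith [norm_nonneg (c v)]
  have hT₀1 : 1 ≤ T₀ := by rw [hT₀]; exact one_le_PP h1c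
  obtain ⟨T, hT⟩ : ∃ T, T = T₀ * Nk := ⟨_, rfl⟩
  have hT1 : 1 ≤ T := by rw [hT]; exact one_le_mul_of_one_le_of_one_le hT₀1 hNk1
  have hT0 : 0 < T := by linarith
  obtain ⟨d, hd⟩ : ∃ d, d = dK K := ⟨_, rfl⟩
  have hd1 : 1 ≤ d := by rw [hd]; exact one_le_dK
  have hd0 : 0 < d := by linarith
  obtain ⟨Wd, hWd⟩ : ∃ Wd, Wd = 1 + A / T ^ (1 / 2 : ℝ) := ⟨_, rfl⟩
  have hW1 : 1 ≤ Wd := by
    have : 0 ≤ A / T ^ (1 / 2 : ℝ) := by positivity
    rw [hWd]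
    linarith
  have hW0 : 0 < Wd := by linarith
  rw [← hT₀, ← hT, ← hA, ← hWd, ← hd]
  obtain ⟨X, hX⟩ : ∃ X, X = Nr ^ 3 * d ^ (5 / 4 : ℝ) * (1 + A) ^ (1 / 2 : ℝ) *
    T ^ (27 / 164 : ℝ) * Wd ^ (3 / 4 : ℝ) := ⟨_, rfl⟩
  have hX0 : 0 ≤ X := by rw [hX]; positivity
  have hX2 : X ^ 2 = Nr ^ 6 * d ^ (5 / 2 : ℝ) * (1 + A) * T ^ (27 / 82 : ℝ) *
      Wd ^ (3 / 2 : ℝ) := by
    rw [hX, mul_pow, mul_pow, mul_pow, mul_pow, ← pow_mul,
      ← Real.rpow_natCast (d ^ (5 / 4 : ℝ)),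
      ← Real.rpow_natCast ((1 + A) ^ (1 / 2 : ℝ)), ← Real.rpow_natCast (T ^ (27 / 164 : ℝ)),
      ← Real.rpow_natCast (Wd ^ (3 / 4 : ℝ)), ← Real.rpow_mul hd0.le, ← Real.rpow_mul (by linarith),
      ← Real.rpow_mul hT0.le, ← Real.rpow_mul hW0.le]
    norm_num
  have hgoal : (CU * b * 2 + Real.sqrt E) * Nr ^ 3 * d ^ (5 / 4 : ℝ) * (1 + A) ^ (1 / 2 : ℝ) *
      T ^ (27 / 164 : ℝ) * Wd ^ (3 / 4 : ℝ) = (CU * b * 2 + Real.sqrt E) * X := by
    rw [hX]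
    ring
  rw [hgoal]
  -- the function
  obtain ⟨F, hF⟩ : ∃ F, F = FY p c y ω (l * r) M ρ q := ⟨_, rfl⟩
  have hFb : ∀ x ∈ M, ‖F x‖ ≤ b := fun x hx => by
    have := FY_le hB₀ hpB c y ω (l * r) M ρ (hCD.norm x hx)
    rw [hF, hb, ← hK]
    exact this
  have hFne : ∀ x, F x ≠ 0 → x - ρ ∈ ((l * r : Ideal (𝓞 K)) : FI K) * M ∧
      ∀ v : InfinitePlace K, ‖wv v x y ω - 1‖ ≤ 1 / 10000 := fun x hx => by
    rw [hF] at hx
    exact FY_ne hp hx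
  have hDlr0 : 0 ≤ A / Nr := by positivity
  have hcount : ∀ R : ℝ, 0 ≤ R → R ≤ 1 →
      {x : K | x - ρ ∈ ((l * r : Ideal (𝓞 K)) : FI K) * M ∧ ∀ v, ‖wv v x y ω - 1‖ ≤ R}.Finite ∧
      ({x : K | x - ρ ∈ ((l * r : Ideal (𝓞 K)) : FI K) * M ∧
        ∀ v, ‖wv v x y ω - 1‖ ≤ R}.ncard : ℝ) ≤ CU * (1 + A) := by
    intro R hR0 hR1
    refine count hCU1 y ω ?_ ?_ hR0 hR1 fun c' => ?_
    · rw [hDlr]
      exact div_le_self hA0.le hNr1
    · rw [hDlr]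
      exact hDlr0
    · exact HU K hK _ y ω c' (fun _ => R) (mul_ne hlr0 hM) hω fun _ => hR0
  obtain ⟨hS1, hS1c⟩ := hcount (1 / 10000) (by norm_num) (by norm_num)
  have hFS : ∀ x ∈ M, F x ≠ 0 →
      x ∈ {x : K | x - ρ ∈ ((l * r : Ideal (𝓞 K)) : FI K) * M ∧
        ∀ v, ‖wv v x y ω - 1‖ ≤ 1 / 10000} := fun x _ h => hFne x h
  have hFfin : {x : K | x ∈ M ∧ F x ≠ 0}.Finite := hS1.subset fun x hx => hFS x hx.1 hx.2
  have hF' : ∑' x : {x : K // x ∈ M}, ci K (l * r) M ρ x * q x *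
      pF (fun v => GG (p (rv v)) (c v)) y ω x = ∑' x : {x : K // x ∈ M}, F x := by
    rw [hF]
    rfl
  rw [hF']
  obtain ⟨S, hS⟩ : ∃ S, S = ‖∑' x : {x : K // x ∈ M}, F x‖ := ⟨_, rfl⟩
  have hS0 : 0 ≤ S := by rw [hS]; exact norm_nonneg _
  have htriv : S ≤ CU * (1 + A) * b := by
    rw [hS]
    exact tsum_boundL' M F hS1 hFS (by linarith) hFb hS1c
  rw [← hS]
  have hsE : 0 ≤ Real.sqrt E * X := by positivity
  have hdb : 1 ≤ d ^ (5 / 2 : ℝ) := Real.one_le_rpow hd1 (by norm_num)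
  have hWb : 1 ≤ Wd ^ (3 / 2 : ℝ) := Real.one_le_rpow hW1 (by norm_num)
  have hTb : 1 ≤ T ^ (27 / 82 : ℝ) := Real.one_le_rpow hT1 (by norm_num)
  have hNr6 : 1 ≤ Nr ^ 6 := one_le_pow₀ hNr1
  by_cases hcase : A ≤ T ^ (27 / 82 : ℝ)
  · -- the trivial bound
    have h1 : (1 + A) ^ 2 ≤ (2 * X) ^ 2 := by
      rw [mul_pow, hX2]
      have e1 : (1 + A) ≤ 2 * T ^ (27 / 82 : ℝ) := by linarith
      have e2 : (1 + A) * T ^ (27 / 82 : ℝ) ≤
          Nr ^ 6 * d ^ (5 / 2 : ℝ) * (1 + A) * T ^ (27 / 82 : ℝ) * Wd ^ (3 / 2 : ℝ) := by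
        have e3 : 0 ≤ (1 + A) * T ^ (27 / 82 : ℝ) := by positivity
        have e4 : 1 ≤ Nr ^ 6 * (d ^ (5 / 2 : ℝ) * Wd ^ (3 / 2 : ℝ)) :=
          one_le_mul_of_one_le_of_one_le hNr6 (one_le_mul_of_one_le_of_one_le hdb hWb)
        calc (1 + A) * T ^ (27 / 82 : ℝ) = 1 * ((1 + A) * T ^ (27 / 82 : ℝ)) := by ring
          _ ≤ (Nr ^ 6 * (d ^ (5 / 2 : ℝ) * Wd ^ (3 / 2 : ℝ))) * ((1 + A) * T ^ (27 / 82 : ℝ)) :=
              mul_le_mul_of_nonneg_right e4 e3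
          _ = _ := by ring
      have e5 : (1 + A) ^ 2 ≤ (1 + A) * (2 * T ^ (27 / 82 : ℝ)) := by
        rw [sq]
        exact mul_le_mul_of_nonneg_left e1 (by linarith)
      have e6 : (1 + A) * (2 * T ^ (27 / 82 : ℝ)) = 2 * ((1 + A) * T ^ (27 / 82 : ℝ)) := by ring
      have e7 : 0 ≤ (1 + A) * T ^ (27 / 82 : ℝ) := by positivity
      linarith
    have h2 : 1 + A ≤ 2 * X := le_of_pow_le_pow_left₀ (n := 2) (by norm_num) (by positivity) h1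
    have h3 : CU * (1 + A) * b ≤ CU * b * 2 * X := by
      have : CU * b * (1 + A) ≤ CU * b * (2 * X) :=
        mul_le_mul_of_nonneg_left h2 (by positivity)
      linarith
    linarith
  push Not at hcase
  have hA1 : 1 ≤ A := by linarith
  have hUA : CU * (1 + A) ≤ 2 * CU * A := by
    have h1 := mul_le_mul_of_nonneg_left (by linarith : 1 + A ≤ 2 * A) (by linarith : 0 ≤ CU)
    linarith
  -- the powers
  have hTθ : T ^ (-(27 / 82) : ℝ) = T₀ ^ (-(27 / 82) : ℝ) * Nk ^ (-(27 / 82) : ℝ) := by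
    rw [hT, Real.mul_rpow (by linarith) (by linarith)]
  have hNkm : Nk ^ (-(27 / 82) : ℝ) = (Nk ^ (27 / 82 : ℝ))⁻¹ := Real.rpow_neg (by linarith) _
  have hNkp : 0 < Nk ^ (27 / 82 : ℝ) := by positivity
  -- the shifts
  obtain ⟨ρ₀, hρ₀⟩ : ∃ ρ₀ : InfinitePlace K → ℝ,
    ρ₀ = fun v => 1 / 20000 * (1 + ‖c v‖) ^ (-(27 / 82) : ℝ) := ⟨_, rfl⟩
  obtain ⟨ρ', hρ'⟩ : ∃ ρ' : InfinitePlace K → ℝ,
    ρ' = fun v => 1 / 10000 * (1 + ‖c v‖) ^ (-(27 / 82) : ℝ) := ⟨_, rfl⟩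
  have hpow : ∀ v, 0 < (1 + ‖c v‖) ^ (-(27 / 82) : ℝ) ∧ (1 + ‖c v‖) ^ (-(27 / 82) : ℝ) ≤ 1 :=
    fun v => ⟨Real.rpow_pos_of_pos (by linarith [h1c v]) _,
      Real.rpow_le_one_of_one_le_of_nonpos (h1c v) (by norm_num)⟩
  have hρ0 : ∀ v, 0 < ρ₀ v := fun v => by rw [hρ₀]; exact mul_pos (by norm_num) (hpow v).1
  have hρ0' : ∀ v, 0 < ρ' v := fun v => by rw [hρ']; exact mul_pos (by norm_num) (hpow v).1
  have hPρ : PP ρ₀ = (1 / 20000) ^ n * T₀ ^ (-(27 / 82) : ℝ) := by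
    rw [hρ₀, PP_const_mul, hK, PP_rpow fun v => by linarith [h1c v], hT₀]
  have hPρ' : PP ρ' = (1 / 10000) ^ n * T₀ ^ (-(27 / 82) : ℝ) := by
    rw [hρ', PP_const_mul, hK, PP_rpow fun v => by linarith [h1c v], hT₀]
  obtain ⟨L, hL⟩ : ∃ L : FI K, L = ((l * κ : Ideal (𝓞 K)) : FI K) * M := ⟨_, rfl⟩
  have hL0 : L ≠ 0 := by rw [hL]; exact mul_ne hlκ0 hM
  have hLr : ∀ x ∈ L, x ∈ ((l * r : Ideal (𝓞 K)) : FI K) * M := fun x hx => by
    rw [hL] at hx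
    exact mem_mono hlκr hx
  have hLM : ∀ x ∈ L, x ∈ M := fun x hx => mem_of (hLr x hx)
  have hDL : DD L y = A / Nκ := by rw [hL]; exact hDlκ
  have hBfin : {x : K | x ∈ L ∧ ∀ v, ‖wv v x y ω‖ ≤ ρ₀ v}.Finite := by
    have h1 := (HU K hK L y ω (fun _ => 0) ρ₀ hL0 hω fun v => (hρ0 v).le).1
    simpa using h1
  obtain ⟨B', hB'⟩ : ∃ B' : Finset K, B' = hBfin.toFinset := ⟨_, rfl⟩
  have hB'mem : ∀ x, x ∈ B' ↔ x ∈ L ∧ ∀ v, ‖wv v x y ω‖ ≤ ρ₀ v := fun x => by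
    rw [hB', Set.Finite.mem_toFinset]
    rfl
  obtain ⟨B, hB⟩ : ∃ B : Finset K, B = B'.image (fun x => 2 * x) := ⟨_, rfl⟩
  have h2ne : (2 : K) ≠ 0 := two_ne_zero
  have hBcard : B.card = B'.card := by
    rw [hB]
    exact Finset.card_image_of_injective _ fun x x' h => mul_left_cancel₀ h2ne h
  have hBmem : ∀ x ∈ B, ∃ x' ∈ B', x = 2 * x' := fun x hx => by
    rw [hB] at hx
    obtain ⟨x', h1, h2⟩ := Finset.mem_image.1 hx
    exact ⟨x', h1, h2.symm⟩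
  have hBL : ∀ x ∈ B, x ∈ M := by
    intro x hx
    obtain ⟨x', h1, rfl⟩ := hBmem x hx
    rw [two_mul]
    exact add_memL (hLM _ ((hB'mem _).1 h1).1) (hLM _ ((hB'mem _).1 h1).1)
  have h0B' : (0 : K) ∈ B' := by
    rw [hB'mem]
    refine ⟨zero_memL L, fun v => ?_⟩
    rw [wv_zero, norm_zero]
    exact (hρ0 v).le
  have h0B : (0 : K) ∈ B := by
    rw [hB]
    exact Finset.mem_image.2 ⟨0, h0B', mul_zero _⟩
  have hBne : B.Nonempty := ⟨0, h0B⟩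
  have hBlow : cL * (1 / 20000) ^ n * (A * T ^ (-(27 / 82) : ℝ)) / (Nr * Real.sqrt d) ≤
      (B.card : ℝ) := by
    have h1 := HL K hK L y ω ρ₀ hL0 hω hρ0
    rw [hPρ, hDL, ← hd] at h1
    rw [hBcard, hB', ← Set.ncard_eq_toFinset_card _ hBfin]
    refine le_trans ?_ h1
    have hsd : 0 < Real.sqrt d := Real.sqrt_pos.2 hd0
    have h2 : T ^ (-(27 / 82) : ℝ) / Nr ≤ T₀ ^ (-(27 / 82) : ℝ) / Nκ := by
      rw [hTθ, hNkm, div_le_div_iff₀ (by linarith) (by linarith)]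
      have h3 : 0 ≤ T₀ ^ (-(27 / 82) : ℝ) := by positivity
      have h4 : (Nk ^ (27 / 82 : ℝ))⁻¹ * Nκ ≤ Nr := by
        rw [inv_mul_le_iff₀ hNkp]
        exact hκ2
      calc T₀ ^ (-(27 / 82) : ℝ) * (Nk ^ (27 / 82 : ℝ))⁻¹ * Nκ =
            T₀ ^ (-(27 / 82) : ℝ) * ((Nk ^ (27 / 82 : ℝ))⁻¹ * Nκ) := by ring
        _ ≤ _ := mul_le_mul_of_nonneg_left h4 h3
    calc cL * (1 / 20000) ^ n * (A * T ^ (-(27 / 82) : ℝ)) / (Nr * Real.sqrt d) =
          cL * (1 / 20000) ^ n * A / Real.sqrt d * (T ^ (-(27 / 82) : ℝ) / Nr) := by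
          rw [mul_comm Nr, ← div_div]
          ring
      _ ≤ cL * (1 / 20000) ^ n * A / Real.sqrt d * (T₀ ^ (-(27 / 82) : ℝ) / Nκ) :=
          mul_le_mul_of_nonneg_left h2 (by positivity)
      _ = _ := by ring
  have hBpos : 0 < (B.card : ℝ) := by exact_mod_cast hBne.card_pos
  -- the number of the shifted points
  obtain ⟨hS2, hS2c⟩ := hcount (2 / 10000) (by norm_num) (by norm_num)
  have hN : ({x : K | x ∈ M ∧ ∃ b ∈ B, F (x + b) ≠ 0}.ncard : ℝ) ≤ 2 * CU * A := by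
    have h1 : {x : K | x ∈ M ∧ ∃ b ∈ B, F (x + b) ≠ 0} ⊆
        {x : K | x - ρ ∈ ((l * r : Ideal (𝓞 K)) : FI K) * M ∧
          ∀ v, ‖wv v x y ω - 1‖ ≤ 2 / 10000} := by
      rintro x ⟨hx, b, hb, hne⟩
      obtain ⟨b', hb', rfl⟩ := hBmem b hb
      obtain ⟨h3', h3⟩ := hFne _ hne
      have hb'' := hLr _ ((hB'mem _).1 hb').1
      refine ⟨?_, fun v => ?_⟩
      · have := sub_memL (sub_memL h3' hb'') hb''
        rwa [show x + 2 * b' - ρ - b' - b' = x - ρ by ring] at this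
      have h3 := h3 v
      have h4 := ((hB'mem _).1 hb').2 v
      have h5 : ρ₀ v ≤ 1 / 20000 := by
        have h6 := mul_le_mul_of_nonneg_left (hpow v).2 (by norm_num : (0 : ℝ) ≤ 1 / 20000)
        rw [mul_one] at h6
        rw [hρ₀]
        exact h6
      have h6 : wv v (x + 2 * b') y ω = wv v x y ω + (wv v b' y ω + wv v b' y ω) := by
        rw [wv_add, two_mul, wv_add]
      rw [h6] at h3
      have h7 : wv v x y ω - 1 =
          (wv v x y ω + (wv v b' y ω + wv v b' y ω) - 1) -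
            wv v b' y ω - wv v b' y ω := by ring
      rw [h7]
      calc ‖_ - wv v b' y ω - wv v b' y ω‖ ≤
            ‖wv v x y ω + (wv v b' y ω + wv v b' y ω) - 1 - wv v b' y ω‖ +
              ‖wv v b' y ω‖ := norm_sub_le _ _
        _ ≤ (‖wv v x y ω + (wv v b' y ω + wv v b' y ω) - 1‖ +
              ‖wv v b' y ω‖) + ‖wv v b' y ω‖ := by
            gcongr
            exact norm_sub_le _ _
        _ ≤ 2 / 10000 := by linarith
    have h2 : ({x : K | x ∈ M ∧ ∃ b ∈ B, F (x + b) ≠ 0}.ncard : ℝ) ≤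
        ({x : K | x - ρ ∈ ((l * r : Ideal (𝓞 K)) : FI K) * M ∧
          ∀ v, ‖wv v x y ω - 1‖ ≤ 2 / 10000}.ncard : ℝ) := by
      exact_mod_cast Set.ncard_le_ncard h1 hS2
    exact h2.trans (hS2c.trans hUA)
  have hWDi := hWD K M F B (2 * CU * A) hFfin hBL hBne hN
  -- the differences
  obtain ⟨Z, hZ⟩ : ∃ Z, Z = T ^ (27 / 82 : ℝ) * Wd ^ (3 / 2 : ℝ) := ⟨_, rfl⟩
  have hZ0 : 0 ≤ Z := by rw [hZ]; positivity
  have hdiff : ∀ δ : K, δ ∈ L → δ ≠ 0 → (∀ v, ‖wv v δ y ω‖ ≤ ρ' v) →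
      ‖∑' x : {x : K // x ∈ M}, dif (2 * δ) F x‖ ≤ CS * Nr ^ 4 * d ^ 2 * (3 * Z) := by
    intro δ hδL hδ0 hδ
    have hδ1 : ∀ v, ‖wv v δ y ω‖ ≤ 1 / 10000 := fun v => (hδ v).trans (by
      have := mul_le_mul_of_nonneg_left (hpow v).2 (by norm_num : (0 : ℝ) ≤ 1 / 10000)
      rw [hρ']
      show 1 / 10000 * (1 + ‖c v‖) ^ (-(27 / 82) : ℝ) ≤ 1 / 10000
      linarith)
    rw [hF, dif_FY p c y ω (l * r) M ρ q (hLr δ hδL)]
    have hδL' : δ ∈ ((l * κ : Ideal (𝓞 K)) : FI K) * M := by rw [← hL]; exact hδL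
    have hCD' : CD l k k.radical M q := by rw [← hr]; exact hCD
    obtain ⟨N', hN'1, hN'2, hN'3, hN'4⟩ := HS K hK l k κ M q y ω c ρ δ hl hk hM hω hCD' hc hκk'
      (by rw [← hr]; exact hκr) hκ4' hρM hδL' hδ0 hδ1
    rw [← hr, ← hA, ← hNr, ← hd] at hN'4
    rw [← hNk, ← hNκ] at hN'2
    rw [← hNk, ← hA] at hN'3
    refine hN'4.trans ?_
    refine mul_le_mul_of_nonneg_left ?_ (by positivity)
    rw [hZ, hWd]
    refine (hNM A T _ hT1 hcase.le ?_ ?_)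
    · -- the lower bound
      rw [div_le_iff₀ hA0]
      have h2 : T₀ * PP (fun v => ‖wv v δ y ω‖) ≤
          PP (fun v => max 1 ‖2 * c v * wv v δ y ω‖) := by
        rw [hT₀, ← PP_mul]
        refine PP_mono (fun v => mul_nonneg (by linarith [h1c v]) (norm_nonneg _)) fun v => ?_
        rcases le_total 1 ‖c v‖ with h3 | h3
        · refine le_trans ?_ (le_max_right _ _)
          rw [norm_mul, norm_mul, Complex.norm_ofNat]
          refine mul_le_mul_of_nonneg_right ?_ (norm_nonneg _)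
          linarith
        · refine le_trans ?_ (le_max_left _ _)
          have h4 := hδ1 v
          have h5 := norm_nonneg (wv v δ y ω)
          have h6 : (1 + ‖c v‖) * ‖wv v δ y ω‖ ≤ 2 * (1 / 10000) :=
            mul_le_mul (by linarith) h4 h5 (by norm_num)
          exact h6.trans (by norm_num)
      have h3 : Nk ≤ N' * A * PP (fun v => ‖wv v δ y ω‖) := hN'3
      have h4 : 0 ≤ PP (fun v => ‖wv v δ y ω‖) := PP_nonneg fun v => norm_nonneg _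
      calc T = T₀ * Nk := hT
        _ ≤ T₀ * (N' * A * PP (fun v => ‖wv v δ y ω‖)) :=
            mul_le_mul_of_nonneg_left h3 (by linarith)
        _ = (T₀ * PP (fun v => ‖wv v δ y ω‖)) * (N' * A) := by ring
        _ ≤ PP (fun v => max 1 ‖2 * c v * wv v δ y ω‖) * (N' * A) :=
            mul_le_mul_of_nonneg_right h2 (by positivity)
        _ = _ := by ring
    · -- the upper bound
      have h5 : T ^ (55 / 82 : ℝ) = T₀ ^ (55 / 82 : ℝ) * Nk ^ (55 / 82 : ℝ) := by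
        rw [hT, Real.mul_rpow (by linarith) (by linarith)]
      rw [h5]
      refine mul_le_mul ?_ ?_ (by linarith) (by positivity)
      · rw [hT₀, ← PP_rpow fun v => by linarith [h1c v]]
        refine PP_mono (fun v => le_trans zero_le_one (le_max_left _ _)) fun v => ?_
        refine max_le (Real.one_le_rpow (h1c v) (by norm_num)) ?_
        rw [norm_mul, norm_mul, Complex.norm_ofNat]
        have h1 : ‖wv v δ y ω‖ ≤ 1 / 10000 * (1 + ‖c v‖) ^ (-(27 / 82) : ℝ) := by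
          have := hδ v
          rw [hρ'] at this
          exact this
        have h2 : (1 + ‖c v‖) ^ (55 / 82 : ℝ) = (1 + ‖c v‖) * (1 + ‖c v‖) ^ (-(27 / 82) : ℝ) := by
          conv_rhs => rw [← Real.rpow_one (1 + ‖c v‖)]
          rw [← Real.rpow_mul (by linarith [h1c v]), ← Real.rpow_add (by linarith [h1c v])]
          norm_num
        rw [h2]
        have h3 := (hpow v).1
        have h4 := norm_nonneg (c v)
        calc 2 * ‖c v‖ * ‖wv v δ y ω‖ ≤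
              2 * ‖c v‖ * (1 / 10000 * (1 + ‖c v‖) ^ (-(27 / 82) : ℝ)) :=
                mul_le_mul_of_nonneg_left h1 (by positivity)
          _ = (2 / 10000 * ‖c v‖) * (1 + ‖c v‖) ^ (-(27 / 82) : ℝ) := by ring
          _ ≤ _ := by
              refine mul_le_mul_of_nonneg_right ?_ h3.le
              linarith
      · have h6 : N' * Nk ^ (27 / 82 : ℝ) ≤ Nk :=
          (mul_le_mul_of_nonneg_left hκ1 (by linarith)).trans hN'2
        have h7 : Nk ^ (55 / 82 : ℝ) * Nk ^ (27 / 82 : ℝ) = Nk := by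
          rw [← Real.rpow_add (by linarith)]
          norm_num
        by_contra h8
        rw [not_le] at h8
        have h9 := mul_lt_mul_of_pos_right h8 hNkp
        rw [h7] at h9
        linarith
  -- the sum over the differences
  obtain ⟨Γ, hΓ⟩ : ∃ Γ, Γ = (B ×ˢ B).image (fun q => q.1 - q.2) := ⟨_, rfl⟩
  have h0Γ : (0 : K) ∈ Γ := by
    rw [hΓ]
    exact Finset.mem_image.2 ⟨(0, 0), Finset.mem_product.2 ⟨h0B, h0B⟩, sub_zero _⟩
  have hΓmem : ∀ γ ∈ Γ.erase 0, ∃ δ : K, γ = 2 * δ ∧ δ ∈ L ∧ δ ≠ 0 ∧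
      ∀ v, ‖wv v δ y ω‖ ≤ ρ' v := by
    intro γ hγ
    obtain ⟨hγ0, hγ⟩ := Finset.mem_erase.1 hγ
    rw [hΓ] at hγ
    obtain ⟨q, hq, rfl⟩ := Finset.mem_image.1 hγ
    obtain ⟨hq1, hq2⟩ := Finset.mem_product.1 hq
    obtain ⟨b₁, hb₁, e1⟩ := hBmem _ hq1
    obtain ⟨b₂, hb₂, e2⟩ := hBmem _ hq2
    refine ⟨b₁ - b₂, ?_, sub_memL ((hB'mem _).1 hb₁).1 ((hB'mem _).1 hb₂).1, ?_, fun v => ?_⟩
    · simp only [e1, e2]
      ring
    · intro h
      apply hγ0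
      simp only [e1, e2]
      rw [← mul_sub, h, mul_zero]
    · rw [wv_sub]
      have h1 := ((hB'mem _).1 hb₁).2 v
      have h2 := ((hB'mem _).1 hb₂).2 v
      have h3 : ρ' v = ρ₀ v + ρ₀ v := by
        rw [hρ', hρ₀]
        show 1 / 10000 * (1 + ‖c v‖) ^ (-(27 / 82) : ℝ) =
          1 / 20000 * (1 + ‖c v‖) ^ (-(27 / 82) : ℝ) + 1 / 20000 * (1 + ‖c v‖) ^ (-(27 / 82) : ℝ)
        ring
      rw [h3]
      exact (norm_sub_le _ _).trans (add_le_add h1 h2)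
  have hΓcard : ((Γ.erase 0).card : ℝ) ≤ 2 * CU * (A * T ^ (-(27 / 82) : ℝ)) := by
    obtain ⟨Y, hY⟩ : ∃ Y : Finset K, Y = (Γ.erase 0).image (fun γ => γ / 2) := ⟨_, rfl⟩
    have h1 : Y.card = (Γ.erase 0).card := by
      rw [hY]
      exact Finset.card_image_of_injective _ fun x x' h => by
        have h' : x / 2 = x' / 2 := h
        exact (div_left_inj' h2ne).1 h'
    have h2 : ∀ x ∈ Y, x ∈ L ∧ x ≠ 0 ∧ ∀ v, ‖wv v x y ω‖ ≤ ρ' v := by
      intro x hx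
      rw [hY] at hx
      obtain ⟨γ, hγ, rfl⟩ := Finset.mem_image.1 hx
      obtain ⟨δ, rfl, h3, h4, h5⟩ := hΓmem γ hγ
      rw [mul_div_cancel_left₀ δ h2ne]
      exact ⟨h3, h4, h5⟩
    have hV0 : DD L y * PP ρ' ≤ A * T ^ (-(27 / 82) : ℝ) := by
      rw [hDL, hPρ', hTθ, hNkm]
      have h8 : ((1 : ℝ) / 10000) ^ n ≤ 1 := pow_le_one₀ (by norm_num) (by norm_num)
      have h9 : 0 ≤ T₀ ^ (-(27 / 82) : ℝ) := by positivity
      have h10 : ((1 : ℝ) / 10000) ^ n * T₀ ^ (-(27 / 82) : ℝ) ≤ T₀ ^ (-(27 / 82) : ℝ) :=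
        mul_le_of_le_one_left h9 h8
      have h11 : A / Nκ ≤ A * (Nk ^ (27 / 82 : ℝ))⁻¹ := by
        rw [div_eq_mul_inv]
        exact mul_le_mul_of_nonneg_left (inv_anti₀ hNkp hκ1) hA0.le
      calc A / Nκ * (((1 : ℝ) / 10000) ^ n * T₀ ^ (-(27 / 82) : ℝ)) ≤
            (A * (Nk ^ (27 / 82 : ℝ))⁻¹) * T₀ ^ (-(27 / 82) : ℝ) :=
            mul_le_mul h11 h10 (by positivity) (by positivity)
        _ = _ := by ring
    rw [← h1]
    by_cases hYe : Y.Nonempty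
    · obtain ⟨x₀, hx₀⟩ := hYe
      obtain ⟨g1, g2, g3⟩ := h2 x₀ hx₀
      have g4 := hNB K L y ω x₀ hL0 hω g1 g2
      have g5 : ∏ v : InfinitePlace K, ‖wv v x₀ y ω‖ ^ v.mult ≤ PP ρ' :=
        PP_mono (R := fun v => ‖wv v x₀ y ω‖) (fun v => norm_nonneg _) g3
      have hDL0 : 0 ≤ DD L y := (DD_pos hL0 y).le
      have g6 : 1 ≤ DD L y * PP ρ' := g4.trans (mul_le_mul_of_nonneg_left g5 hDL0)
      obtain ⟨g7, g8⟩ := HU K hK L y ω (fun _ => 0) ρ' hL0 hω fun v => (hρ0' v).le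
      have g9 : (Y.card : ℝ) ≤
          ({x : K | x ∈ L ∧ ∀ v, ‖wv v x y ω - 0‖ ≤ ρ' v}.ncard : ℝ) := by
        have g10 : (Y : Set K) ⊆ {x : K | x ∈ L ∧ ∀ v, ‖wv v x y ω - 0‖ ≤ ρ' v} := by
          intro x hx
          obtain ⟨a1, -, a3⟩ := h2 x (by exact_mod_cast hx)
          exact ⟨a1, fun v => by rw [sub_zero]; exact a3 v⟩
        have g11 := Set.ncard_le_ncard g10 g7
        rw [Set.ncard_coe_finset] at g11
        exact_mod_cast g11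
      refine g9.trans (g8.trans ?_)
      calc CU * (1 + DD L y * PP ρ') ≤ CU * (2 * (DD L y * PP ρ')) :=
            mul_le_mul_of_nonneg_left (by linarith) (by linarith)
        _ = 2 * CU * (DD L y * PP ρ') := by ring
        _ ≤ _ := mul_le_mul_of_nonneg_left hV0 (by linarith)
    · rw [Finset.not_nonempty_iff_eq_empty] at hYe
      rw [hYe, Finset.card_empty, Nat.cast_zero]
      positivity
  have hsum : ∑ γ ∈ Γ, ‖∑' x : {x : K // x ∈ M}, dif γ F x‖ ≤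
      2 * CU * A * b ^ 2 + 2 * CU * (A * T ^ (-(27 / 82) : ℝ)) *
        (CS * Nr ^ 4 * d ^ 2 * (3 * Z)) := by
    rw [← Finset.add_sum_erase Γ _ h0Γ]
    refine add_le_add ?_ ?_
    · have h1 : ∀ x ∈ M, dif 0 F x ≠ 0 →
          x ∈ {x : K | x - ρ ∈ ((l * r : Ideal (𝓞 K)) : FI K) * M ∧
            ∀ v, ‖wv v x y ω - 1‖ ≤ 1 / 10000} := by
        intro x hx h
        refine hFS x hx fun h' => h ?_
        unfold dif
        rw [h', map_zero, mul_zero]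
      have h2 : ∀ x ∈ M, ‖dif 0 F x‖ ≤ b ^ 2 := by
        intro x hx
        unfold dif
        rw [norm_mul, RCLike.norm_conj, sq, add_zero]
        exact mul_le_mul (hFb x hx) (hFb x hx) (norm_nonneg _) (by linarith)
      exact (tsum_boundL' M (dif 0 F) hS1 h1 (by positivity) h2 hS1c).trans
        (mul_le_mul_of_nonneg_right hUA (by positivity))
    · have h1 : ∀ γ ∈ Γ.erase 0, ‖∑' x : {x : K // x ∈ M}, dif γ F x‖ ≤
          CS * Nr ^ 4 * d ^ 2 * (3 * Z) := by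
        intro γ hγ
        obtain ⟨δ, rfl, h3, h4, h5⟩ := hΓmem γ hγ
        exact hdiff δ h3 h4 h5
      have h2 := Finset.sum_le_card_nsmul _ _ _ h1
      rw [nsmul_eq_mul] at h2
      exact h2.trans (mul_le_mul_of_nonneg_right hΓcard (by positivity))
  -- the end
  have hTm : T ^ (-(27 / 82) : ℝ) * T ^ (27 / 82 : ℝ) = 1 := by
    rw [← Real.rpow_add hT0]
    norm_num
  have hsd : 0 < Real.sqrt d := Real.sqrt_pos.2 hd0
  have hNB' : 2 * CU * A / (B.card : ℝ) ≤ C2 * (Nr * Real.sqrt d) * T ^ (27 / 82 : ℝ) := by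
    rw [div_le_iff₀ hBpos]
    have h1 : C2 * (Nr * Real.sqrt d) * T ^ (27 / 82 : ℝ) *
        (cL * (1 / 20000) ^ n * (A * T ^ (-(27 / 82) : ℝ)) / (Nr * Real.sqrt d)) =
        2 * CU * A := by
      have e1 : C2 * (cL * (1 / 20000) ^ n) = 2 * CU := by
        rw [hC2]
        field_simp
      have e2 : Nr * Real.sqrt d ≠ 0 := by positivity
      calc C2 * (Nr * Real.sqrt d) * T ^ (27 / 82 : ℝ) *
            (cL * (1 / 20000) ^ n * (A * T ^ (-(27 / 82) : ℝ)) / (Nr * Real.sqrt d)) =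
            (C2 * (cL * (1 / 20000) ^ n)) * A * (T ^ (-(27 / 82) : ℝ) * T ^ (27 / 82 : ℝ)) *
              ((Nr * Real.sqrt d) / (Nr * Real.sqrt d)) := by ring
        _ = 2 * CU * A := by rw [e1, hTm, div_self e2, mul_one, mul_one]
    rw [← h1]
    exact mul_le_mul_of_nonneg_left hBlow (by positivity)
  have hmain : S ^ 2 ≤ E * X ^ 2 := by
    have h1 : S ^ 2 ≤ C2 * (Nr * Real.sqrt d) * T ^ (27 / 82 : ℝ) *
        (2 * CU * A * b ^ 2 + 2 * CU * (A * T ^ (-(27 / 82) : ℝ)) *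
          (CS * Nr ^ 4 * d ^ 2 * (3 * Z))) := by
      rw [hS]
      refine hWDi.trans ?_
      rw [← hΓ]
      refine mul_le_mul hNB' hsum (Finset.sum_nonneg fun _ _ => norm_nonneg _) (by positivity)
    refine h1.trans ?_
    have e2 : 2 * CU * (A * T ^ (-(27 / 82) : ℝ)) * (CS * Nr ^ 4 * d ^ 2 * (3 * Z)) =
        6 * CU * CS * Nr ^ 4 * d ^ 2 * A * Wd ^ (3 / 2 : ℝ) := by
      rw [hZ]
      calc 2 * CU * (A * T ^ (-(27 / 82) : ℝ)) * (CS * Nr ^ 4 * d ^ 2 * (3 * (T ^ (27 / 82 : ℝ) *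
            Wd ^ (3 / 2 : ℝ)))) = 6 * CU * CS * Nr ^ 4 * d ^ 2 * A * Wd ^ (3 / 2 : ℝ) *
              (T ^ (-(27 / 82) : ℝ) * T ^ (27 / 82 : ℝ)) := by ring
        _ = _ := by rw [hTm, mul_one]
    have e3 : 2 * CU * A * b ^ 2 ≤
        2 * CU * b ^ 2 * (Nr ^ 4 * d ^ 2 * A * Wd ^ (3 / 2 : ℝ)) := by
      have h3 : 1 ≤ Nr ^ 4 * (d ^ 2 * Wd ^ (3 / 2 : ℝ)) := one_le_mul_of_one_le_of_one_le
        (one_le_pow₀ hNr1) (one_le_mul_of_one_le_of_one_le (one_le_pow₀ hd1) hWb)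
      have h4 : A ≤ Nr ^ 4 * d ^ 2 * A * Wd ^ (3 / 2 : ℝ) := by
        calc A = A * 1 := (mul_one _).symm
          _ ≤ A * (Nr ^ 4 * (d ^ 2 * Wd ^ (3 / 2 : ℝ))) := mul_le_mul_of_nonneg_left h3 hA0.le
          _ = _ := by ring
      calc 2 * CU * A * b ^ 2 = 2 * CU * b ^ 2 * A := by ring
        _ ≤ _ := mul_le_mul_of_nonneg_left h4 (by positivity)
    have e4 : Real.sqrt d * d ^ 2 = d ^ (5 / 2 : ℝ) := by
      rw [Real.sqrt_eq_rpow, ← Real.rpow_natCast, ← Real.rpow_add hd0]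
      norm_num
    rw [e2, hX2, hE]
    calc C2 * (Nr * Real.sqrt d) * T ^ (27 / 82 : ℝ) *
          (2 * CU * A * b ^ 2 + 6 * CU * CS * Nr ^ 4 * d ^ 2 * A * Wd ^ (3 / 2 : ℝ)) ≤
          C2 * (Nr * Real.sqrt d) * T ^ (27 / 82 : ℝ) *
            (2 * CU * b ^ 2 * (Nr ^ 4 * d ^ 2 * A * Wd ^ (3 / 2 : ℝ)) +
            6 * CU * CS * Nr ^ 4 * d ^ 2 * A * Wd ^ (3 / 2 : ℝ)) := by
            refine mul_le_mul_of_nonneg_left ?_ (by positivity)
            linarith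
      _ = C2 * (2 * CU * b ^ 2 + 6 * CU * CS) * (Nr ^ 5 * (Real.sqrt d * d ^ 2) * A *
            T ^ (27 / 82 : ℝ) * Wd ^ (3 / 2 : ℝ)) := by ring
      _ = C2 * (2 * CU * b ^ 2 + 6 * CU * CS) * (Nr ^ 5 * d ^ (5 / 2 : ℝ) * A *
            T ^ (27 / 82 : ℝ) * Wd ^ (3 / 2 : ℝ)) := by rw [e4]
      _ ≤ _ := by
            refine mul_le_mul_of_nonneg_left ?_ (by positivity)
            refine mul_le_mul_of_nonneg_right ?_ (by positivity)
            refine mul_le_mul_of_nonneg_right ?_ (by positivity)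
            refine mul_le_mul ?_ (by linarith) hA0.le (by positivity)
            refine mul_le_mul_of_nonneg_right ?_ (by positivity)
            exact pow_le_pow_right₀ hNr1 (by norm_num)
  have hfin := final E X S hE0 hX0 hmain
  have hrest : 0 ≤ CU * b * 2 * X := by positivity
  linarith

end Pool.Agent.H63.SWX.ME
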